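import Pool.Agent.Helper54.PT.DefsF
import Pool.Agent.Helper19.TW.C5b
import Pool.Agent.Helper45.TW.A1

/-! Modules B1, B2 of the TE project (MP_1d384c_nt): the classes at a prime and at infinity. -/

set_option autoImplicit false

namespace Pool.Agent.Helper54.PT

open Polynomial Finset

section RatFunc

variable {F : Type} [Field F]

theorem b1_num {w : RatFunc F} : algebraMap F[X] (RatFunc F) w.num =
    w * algebraMap F[X] (RatFunc F) w.denom := by
  have h1 := RatFunc.num_div_denom w
  have h2 : algebraMap F[X] (RatFunc F) w.denom ≠ 0 :=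
    RatFunc.algebraMap_ne_zero (RatFunc.denom_ne_zero w)
  nth_rw 2 [← h1]
  rw [div_mul_cancel₀ _ h2]

theorem b1_ord_neg_one (P : Prm F) : ordK P (-1 : RatFunc F) = 0 := by
  have h := ordK_mul P (neg_ne_zero.2 (one_ne_zero (α := RatFunc F)))
    (neg_ne_zero.2 (one_ne_zero (α := RatFunc F)))
  rw [neg_mul_neg, one_mul, c5_ordK_one] at h
  omega

theorem b1_ord_neg (P : Prm F) {x : RatFunc F} (hx : x ≠ 0) : ordK P (-x) = ordK P x := by
  have h := ordK_mul P (neg_ne_zero.2 (one_ne_zero (α := RatFunc F))) hx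
  rw [b1_ord_neg_one, zero_add, neg_one_mul] at h
  exact h

/-- one-units have order zero -/
theorem b1_ord_unit (P : Prm F) {w : RatFunc F} (hw0 : w ≠ 0)
    (h : w = 1 ∨ 0 < ordK P (w - 1)) : ordK P w = 0 := by
  rcases h with rfl | h
  · exact c5_ordK_one P
  by_cases h1 : w - 1 = 0
  · rw [sub_eq_zero.1 h1]; exact c5_ordK_one P
  have e : (w - 1) + 1 = w := by ring
  have h2 := ordK_add P h1 one_ne_zero (by rw [e]; exact hw0)
  rw [e, c5_ordK_one] at h2
  have e' : w + -(w - 1) = 1 := by ring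
  have h3 := ordK_add P hw0 (neg_ne_zero.2 h1) (by rw [e']; exact one_ne_zero)
  rw [e', c5_ordK_one, b1_ord_neg P h1] at h3
  rcases min_le_iff.1 h2 with h4 | h4 <;> rcases min_le_iff.1 h3 with h5 | h5 <;> omega

/-- one-units have residue one -/
theorem b1_rs_unit {lg : F → ZMod 2} (hlg : IsLog 2 lg) (P : Prm F) {w : RatFunc F} (hw0 : w ≠ 0)
    (h : w = 1 ∨ 0 < ordK P (w - 1)) : rsK lg P w = 0 := by
  have how := b1_ord_unit P hw0 h
  have hcop := RatFunc.isCoprime_num_denom w
  have hd0 : w.denom ≠ 0 := RatFunc.denom_ne_zero w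
  have hn0 : w.num ≠ 0 := RatFunc.num_ne_zero hw0
  have hmul : (multiplicity P.1 w.num : ℤ) = multiplicity P.1 w.denom := by
    have := how
    unfold ordK at this
    omega
  have hPn : ¬ P.1 ∣ w.num := by
    intro hdv
    have h1 : multiplicity P.1 w.num ≠ 0 := by
      intro h0
      exact (multiplicity_eq_zero.1 h0) hdv
    have h2 : multiplicity P.1 w.denom ≠ 0 := by omega
    have h3 : P.1 ∣ w.denom := by
      by_contra hc
      exact h2 (multiplicity_eq_zero.2 hc)
    exact P.2.2.not_isUnit (hcop.isUnit_of_dvd' hdv h3)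
  have hPd : ¬ P.1 ∣ w.denom := by
    intro hdv
    have h1 : multiplicity P.1 w.denom ≠ 0 := by
      intro h0
      exact (multiplicity_eq_zero.1 h0) hdv
    have h2 : multiplicity P.1 w.num ≠ 0 := by omega
    exact h2 (multiplicity_eq_zero.2 hPn)
  have hdvd : P.1 ∣ w.num - w.denom := by
    rcases eq_or_ne (w.num - w.denom) 0 with h0 | h0
    · rw [h0]; exact dvd_zero _
    have hda : algebraMap F[X] (RatFunc F) w.denom ≠ 0 := RatFunc.algebraMap_ne_zero hd0
    have h1 : algebraMap F[X] (RatFunc F) (w.num - w.denom) =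
        (w - 1) * algebraMap F[X] (RatFunc F) w.denom := by
      rw [map_sub, b1_num]; ring
    have hw1 : w - 1 ≠ 0 := by
      intro h2
      rw [h2, zero_mul] at h1
      exact RatFunc.algebraMap_ne_zero h0 h1
    have h3 : 0 < ordK P (w - 1) := by
      rcases h with h | h
      · exact absurd (by rw [h]; ring) hw1
      · exact h
    have h4 := ordK_mul P hw1 hda
    rw [← h1, ordK_poly P h0, ordK_poly P hd0, multiplicity_eq_zero.2 hPd] at h4
    have h5 : multiplicity P.1 (w.num - w.denom) ≠ 0 := by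
      intro h6
      rw [h6] at h4
      push_cast at h4
      omega
    by_contra hc
    exact h5 (multiplicity_eq_zero.2 hc)
  have hda : algebraMap F[X] (RatFunc F) w.denom ≠ 0 := RatFunc.algebraMap_ne_zero hd0
  have h1 := rsK_mul hlg P hw0 hda
  rw [← b1_num, rsK_poly hlg P hPn, rsK_poly hlg P hPd, sy_congr hdvd] at h1
  have h2 := h1.symm
  rwa [add_eq_right] at h2

theorem b1_cls_mul {lg : F → ZMod 2} (hlg : IsLog 2 lg) (P : Prm F) {x y : RatFunc F}
    (hx : x ≠ 0) (hy : y ≠ 0) : clsP lg P (x * y) = clsP lg P x + clsP lg P y := by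
  rw [clsP, clsP, clsP, ordK_mul P hx hy, rsK_mul hlg P hx hy, Prod.mk_add_mk]
  push_cast
  rfl

theorem b1_lc_neg_one : lcK (-1 : RatFunc F) = -1 := by
  have h := lcK_poly (F := F) (-1)
  rw [map_neg, map_one] at h
  rw [h, leadingCoeff_neg, leadingCoeff_one]

theorem b1_cls_neg_one {lg : F → ZMod 2} (hm : lg (-1) = 0) (P : Prm F) :
    clsP lg P (-1) = 0 := by
  have h : (fun Q : Prm F => (if Q = P then 0 else
      (ordK Q (-1 : RatFunc F) : ZMod 2) * sy lg P.1 Q.1)) = fun _ => 0 := by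
    funext Q
    rw [b1_ord_neg_one]
    split_ifs <;> simp
  have h2 : rsK lg P (-1 : RatFunc F) = 0 := by
    rw [rsK, h, finsum_zero, zero_add, b1_lc_neg_one, hm, mul_zero]
  rw [clsP, h2, b1_ord_neg_one]
  rfl

theorem b1_unit {lg : F → ZMod 2} (hlg : IsLog 2 lg) (P : Prm F) {w : RatFunc F} (hw0 : w ≠ 0)
    (h : w = 1 ∨ 0 < ordK P (w - 1)) : clsP lg P w = 0 := by
  rw [clsP, b1_ord_unit P hw0 h, b1_rs_unit hlg P hw0 h]
  rfl

/-- one-units at infinity -/
theorem b2_unit {w : RatFunc F} (hw0 : w ≠ 0) (h : w = 1 ∨ (w - 1).intDegree < 0) :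
    w.intDegree = 0 ∧ lcK w = 1 := by
  rcases h with rfl | h
  · refine ⟨RatFunc.intDegree_one, ?_⟩
    have h := lcK_poly (F := F) 1
    rw [map_one] at h
    rw [h, leadingCoeff_one]
  by_cases hw1 : w - 1 = 0
  · rw [hw1, RatFunc.intDegree_zero] at h
    exact absurd h (lt_irrefl _)
  have hd0 : w.denom ≠ 0 := RatFunc.denom_ne_zero w
  have hn0 : w.num ≠ 0 := RatFunc.num_ne_zero hw0
  have hda : algebraMap F[X] (RatFunc F) w.denom ≠ 0 := RatFunc.algebraMap_ne_zero hd0
  have h1 : algebraMap F[X] (RatFunc F) (w.num - w.denom) =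
      (w - 1) * algebraMap F[X] (RatFunc F) w.denom := by
    rw [map_sub, b1_num]; ring
  have h0 : w.num - w.denom ≠ 0 := by
    intro h2
    rw [h2, map_zero] at h1
    exact mul_ne_zero hw1 hda h1.symm
  have h4 := RatFunc.intDegree_mul hw1 hda
  rw [← h1, RatFunc.intDegree_polynomial, RatFunc.intDegree_polynomial] at h4
  have h5 : (w.num - w.denom).natDegree < w.denom.natDegree := by omega
  have h6 : w.num = (w.num - w.denom) + w.denom := by ring
  have hdeg : w.num.natDegree = w.denom.natDegree := by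
    rw [h6]
    exact natDegree_add_eq_right_of_natDegree_lt h5
  have hlc : w.num.leadingCoeff = w.denom.leadingCoeff := by
    have h7 : (w.num - w.denom).coeff w.denom.natDegree = 0 :=
      coeff_eq_zero_of_natDegree_lt h5
    rw [coeff_sub, sub_eq_zero] at h7
    rw [leadingCoeff, leadingCoeff, hdeg]
    exact h7
  have hmon : w.denom.leadingCoeff = 1 := RatFunc.monic_denom w
  refine ⟨?_, by rw [lcK, hlc, hmon]⟩
  rw [RatFunc.intDegree, hdeg, sub_self]

end RatFunc

section

variable {F : Type} [Field F] [Finite F] {lg : F → ZMod 2}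

/-- B1b: one-units at a prime -/
theorem clsP_add (hlg : IsLog 2 lg) (P : Prm F) {x y : RatFunc F} (hx : x ≠ 0)
    (hy : y = 0 ∨ ordK P x < ordK P y) :
    x + y ≠ 0 ∧ ordK P (x + y) = ordK P x ∧ clsP lg P (x + y) = clsP lg P x := by
  rcases eq_or_ne y 0 with rfl | hy0
  · rw [add_zero]
    exact ⟨hx, rfl, rfl⟩
  have hlt : ordK P x < ordK P y := by
    rcases hy with h | h
    · exact absurd h hy0
    · exact h
  have hu : 0 < ordK P (y / x) := by
    rw [div_eq_mul_inv, ordK_mul P hy0 (inv_ne_zero hx), ordK_inv P hx]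
    omega
  have hw0 : 1 + y / x ≠ 0 := by
    intro h0
    have h1 : y / x = -1 := by rw [← sub_eq_zero, sub_neg_eq_add, add_comm]; exact h0
    rw [h1, b1_ord_neg_one] at hu
    exact lt_irrefl _ hu
  have he : (1 + y / x) - 1 = y / x := by ring
  have hx' : x + y = x * (1 + y / x) := by
    field_simp
  have h1 := b1_ord_unit P hw0 (Or.inr (by rw [he]; exact hu))
  have h2 := b1_unit hlg P hw0 (Or.inr (by rw [he]; exact hu))
  refine ⟨?_, ?_, ?_⟩
  · rw [hx']; exact mul_ne_zero hx hw0
  · rw [hx', ordK_mul P hx hw0, h1, add_zero]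
  · rw [hx', b1_cls_mul hlg P hx hw0, h2, add_zero]

theorem b1_pz_self (a : ZMod 2 × ZMod 2) : pz a a = 0 := by
  revert a
  decide

/-- B1: the class at a prime -/
theorem isCls_clsP (hlg : IsLog 2 lg) (hm : lg (-1) = 0) (P : Prm F) : IsCls (clsP lg P) := by
  refine ⟨fun x y hx hy => b1_cls_mul hlg P hx hy, b1_cls_neg_one hm P, ?_⟩
  have key : ∀ x y : RatFunc F, x ≠ 0 → y ≠ 0 → x + y = 1 → ordK P x ≠ 0 →
      pz (clsP lg P x) (clsP lg P y) = 0 ∧ pz (clsP lg P y) (clsP lg P x) = 0 := by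
    intro x y hx hy hxy h0
    rcases lt_or_gt_of_ne h0 with h1 | h1
    · have e : y = -x + 1 := by rw [← hxy]; ring
      have h2 := clsP_add hlg P (x := -x) (y := 1) (neg_ne_zero.2 hx)
        (Or.inr (by rw [b1_ord_neg P hx, c5_ordK_one]; exact h1))
      have h3 : clsP lg P (-x) = clsP lg P x := by
        have h4 := b1_cls_mul hlg P (neg_ne_zero.2 (one_ne_zero (α := RatFunc F))) hx
        rw [b1_cls_neg_one hm P, zero_add, neg_one_mul] at h4
        exact h4
      have h5 : clsP lg P y = clsP lg P x := by rw [e, h2.2.2, h3]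
      rw [h5]
      exact ⟨b1_pz_self _, b1_pz_self _⟩
    · have h2 : clsP lg P y = 0 := by
        refine b1_unit hlg P hy (Or.inr ?_)
        have e : y - 1 = -x := by rw [← hxy]; ring
        rw [e, b1_ord_neg P hx]
        exact h1
      rw [h2]
      constructor <;> simp [pz]
  intro x y hx hy hxy
  by_cases h0 : ordK P x = 0
  · by_cases h1 : ordK P y = 0
    · simp [pz, clsP, h0, h1]
    · exact (key y x hy hx (by rw [add_comm]; exact hxy) h1).2
  · exact (key x y hx hy hxy h0).1

theorem b2_cls_mul (hlg : IsLog 2 lg) {x y : RatFunc F}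
    (hx : x ≠ 0) (hy : y ≠ 0) : clsI lg (x * y) = clsI lg x + clsI lg y := by
  rw [clsI, clsI, clsI, lcK_mul hx hy, hlg.1 _ _ (lcK_ne_zero hx) (lcK_ne_zero hy),
    RatFunc.intDegree_mul hx hy, Prod.mk_add_mk]
  push_cast
  rfl

theorem b2_lg_one (hlg : IsLog 2 lg) : lg 1 = 0 :=
  (hlg.2.1 1 one_ne_zero).2 ⟨1, by simp⟩

/-- B2: the class at infinity -/
theorem isCls_clsI (hlg : IsLog 2 lg) (hm : lg (-1) = 0) : IsCls (clsI (F := F) lg) := by
  have hneg : clsI lg (-1 : RatFunc F) = 0 := by
    rw [clsI, b1_lc_neg_one, hm, RatFunc.intDegree_neg, RatFunc.intDegree_one]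
    rfl
  refine ⟨fun x y hx hy => b2_cls_mul hlg hx hy, hneg, ?_⟩
  have key : ∀ x y : RatFunc F, x ≠ 0 → y ≠ 0 → x + y = 1 → x.intDegree ≠ 0 →
      pz (clsI lg x) (clsI lg y) = 0 ∧ pz (clsI lg y) (clsI lg x) = 0 := by
    intro x y hx hy hxy h0
    rcases lt_or_gt_of_ne h0 with h1 | h1
    · have h2 : clsI lg y = 0 := by
        have e : y - 1 = -x := by rw [← hxy]; ring
        have h3 := b2_unit hy (Or.inr (by rw [e, RatFunc.intDegree_neg]; exact h1))
        rw [clsI, h3.1, h3.2, b2_lg_one hlg]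
        rfl
      rw [h2]
      constructor <;> simp [pz]
    · have e : y = -x * (1 + -x⁻¹) := by
        have : y = 1 - x := by rw [← hxy]; ring
        rw [this]
        field_simp
        ring
      have hw0 : (1 + -x⁻¹ : RatFunc F) ≠ 0 := by
        intro h3
        rw [h3, mul_zero] at e
        exact hy e
      have h3 := b2_unit hw0 (Or.inr (by
        have e' : (1 + -x⁻¹ : RatFunc F) - 1 = -x⁻¹ := by ring
        have h4 := RatFunc.intDegree_mul hx (inv_ne_zero hx)
        rw [mul_inv_cancel₀ hx, RatFunc.intDegree_one] at h4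
        rw [e', RatFunc.intDegree_neg]
        omega))
      have h5 : clsI lg y = clsI lg x := by
        rw [e, b2_cls_mul hlg (neg_ne_zero.2 hx) hw0]
        have h6 : clsI lg (1 + -x⁻¹ : RatFunc F) = 0 := by
          rw [clsI, h3.1, h3.2, b2_lg_one hlg]
          rfl
        have h7 := b2_cls_mul hlg (neg_ne_zero.2 (one_ne_zero (α := RatFunc F))) hx
        rw [hneg, zero_add, neg_one_mul] at h7
        rw [h6, add_zero, h7]
      rw [h5]
      exact ⟨b1_pz_self _, b1_pz_self _⟩
  intro x y hx hy hxy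
  by_cases h0 : x.intDegree = 0
  · by_cases h1 : y.intDegree = 0
    · simp [pz, clsI, h0, h1]
    · exact (key y x hy hx (by rw [add_comm]; exact hxy) h1).2
  · exact (key x y hx hy hxy h0).1

end

end Pool.Agent.Helper54.PT
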