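import Pool.Agent.Helper54.PT.DefsF
import Pool.Agent.Helper63.TW.C21ab
import Pool.Agent.Helper36.TW.C21
import Pool.Agent.Helper19.TW.C5b

/-! Module B11 of the TE project (MP_1d384c_nt): the classes of an element with even order outside
the bad primes and `D`. -/

set_option autoImplicit false

namespace Pool.Agent.Helper54.PT

open Polynomial Finset

variable {F : Type} [Field F] [Finite F] {lg : F → ZMod 2}

variable {σ : Type} [Fintype σ] [DecidableEq σ] {R : σ → Prm F} {α β : F[X]}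

/-- B11a: the class at a bad prime of an element with even order outside the bad primes and `D` -/
theorem clsP_eq (hlg : IsLog 2 lg) (hrec : ∀ P Q : Prm F, P ≠ Q → sy lg Q.1 P.1 = sy lg P.1 Q.1)
    (hS : SetupF R α β) (D : Finset (pd lg hrec R).P) {x : RatFunc F} (hx : x ≠ 0)
    (hx' : ∀ Q : Prm F, Q ∉ und lg hrec R D → (∀ r, Q ≠ R r) → (ordK Q x : ZMod 2) = 0) (r : σ) :
    clsP lg (R r) x = (bclF R lg x (some r),
      zl (fun r => ((R r).1.natDegree : ZMod 2)) (fun r r' => sy lg (R r).1 (R r').1)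
        (bclF R lg x) (fun s => ∑ p : D, (pd lg hrec R).xx p.1 s * (ordK p.1.1 x : ZMod 2))
        (some r)) := by
  have hnm : R r ∉ und lg hrec R D := fun h => C21_und_ne hrec D _ h r rfl
  rw [clsP]
  refine Prod.ext rfl ?_
  show rsK lg (R r) x = ∑ r' ∈ univ.erase r, (ordK (R r') x : ZMod 2) * sy lg (R r).1 (R r').1 +
    lg (lcK x) * ((R r).1.natDegree : ZMod 2) + ∑ p : D, sy lg p.1.1.1 (R r).1 * (ordK p.1.1 x : ZMod 2)
  rw [C21ab.rsK_eq hS.inj lg (und lg hrec R D) (C21_und_ne hrec D) x hx' (R r),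
    erase_eq_of_notMem hnm, C21_sum_und]
  have e1 : ∑ r' : σ, (if R r' = R r then 0 else (ordK (R r') x : ZMod 2) * sy lg (R r).1 (R r').1) =
      ∑ r' ∈ univ.erase r, (ordK (R r') x : ZMod 2) * sy lg (R r).1 (R r').1 := by
    rw [← sum_erase univ (a := r) (by simp)]
    refine sum_congr rfl fun r' hr' => ?_
    rw [if_neg fun h => ne_of_mem_erase hr' (hS.inj h)]
  have e2 : ∑ p : D, (ordK p.1.1 x : ZMod 2) * sy lg (R r).1 p.1.1.1 =
      ∑ p : D, sy lg p.1.1.1 (R r).1 * (ordK p.1.1 x : ZMod 2) := by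
    refine sum_congr rfl fun p _ => ?_
    rw [hrec p.1.1 (R r) (p.1.2 r), mul_comm]
  rw [e1, e2]
  ring

/-- B11b: the class at infinity -/
theorem clsI_eq (hlg : IsLog 2 lg) (hrec : ∀ P Q : Prm F, P ≠ Q → sy lg Q.1 P.1 = sy lg P.1 Q.1)
    (hS : SetupF R α β) (D : Finset (pd lg hrec R).P) {x : RatFunc F} (hx : x ≠ 0)
    (hx' : ∀ Q : Prm F, Q ∉ und lg hrec R D → (∀ r, Q ≠ R r) → (ordK Q x : ZMod 2) = 0) :
    clsI lg x = (bclF R lg x none,
      zl (fun r => ((R r).1.natDegree : ZMod 2)) (fun r r' => sy lg (R r).1 (R r').1)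
        (bclF R lg x) (fun s => ∑ p : D, (pd lg hrec R).xx p.1 s * (ordK p.1.1 x : ZMod 2))
        none) := by
  rw [clsI]
  refine Prod.ext rfl ?_
  show ((x.intDegree : ℤ) : ZMod 2) = ∑ r, ((R r).1.natDegree : ZMod 2) * (ordK (R r) x : ZMod 2) +
    ∑ p : D, (p.1.1.1.natDegree : ZMod 2) * (ordK p.1.1 x : ZMod 2)
  rw [C21ab.deg_eq hS.inj (und lg hrec R D) (C21_und_ne hrec D) x hx' (ordK_finite hx)
    (intDegree_eq hx), C21_sum_und]

/-- B11c: the class at a prime of `D` -/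
theorem clsP_eqD (hlg : IsLog 2 lg) (hrec : ∀ P Q : Prm F, P ≠ Q → sy lg Q.1 P.1 = sy lg P.1 Q.1)
    (hS : SetupF R α β) (D : Finset (pd lg hrec R).P) {x : RatFunc F} (hx : x ≠ 0)
    (hx' : ∀ Q : Prm F, Q ∉ und lg hrec R D → (∀ r, Q ≠ R r) → (ordK Q x : ZMod 2) = 0) (p : D) :
    clsP lg p.1.1 x = ((ordK p.1.1 x : ZMod 2), ∑ s : Option σ, bclF R lg x s * (pd lg hrec R).xx p.1 s +
      ∑ p' : D, (if p' = p then 0 else (ordK p'.1.1 x : ZMod 2) * (pd lg hrec R).sym p'.1 p.1)) := by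
  rw [clsP]
  refine Prod.ext rfl ?_
  rw [Fintype.sum_option]
  show rsK lg p.1.1 x = lg (lcK x) * (p.1.1.1.natDegree : ZMod 2) +
    ∑ r : σ, (ordK (R r) x : ZMod 2) * sy lg p.1.1.1 (R r).1 +
      ∑ p' : D, (if p' = p then 0 else (ordK p'.1.1 x : ZMod 2) * sy lg p.1.1.1 p'.1.1.1)
  rw [C21ab.rsK_eq hS.inj lg (und lg hrec R D) (C21_und_ne hrec D) x hx' p.1.1,
    C21_sum_erase hrec D p (fun P' => (ordK P' x : ZMod 2) * sy lg p.1.1.1 P'.1)]
  have e1 : ∑ r' : σ, (if R r' = p.1.1 then 0 else (ordK (R r') x : ZMod 2) *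
      sy lg p.1.1.1 (R r').1) = ∑ r : σ, (ordK (R r) x : ZMod 2) * sy lg p.1.1.1 (R r).1 :=
    sum_congr rfl fun r' _ => if_neg fun h => p.1.2 r' h.symm
  rw [e1]
  ring

end Pool.Agent.Helper54.PT
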