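import Pool.Agent.Helper54.PT.DefsF
import Pool.Agent.Helper79.TE.B3

/-! Module B8 of the TE project (MP_1d384c_nt): the local condition at a prime of `D`. -/

set_option autoImplicit false

namespace Pool.Agent.Helper54.PT

variable {K : Type} [Field K]

/-- B8: the local condition at a prime of `D` -/
theorem locK_D {c : K → ZMod 2 × ZMod 2} (hc : IsCls c) {α β : K} (hα : α ≠ 0) (hβ : β ≠ 0)
    (hγ : β - α ≠ 0) (κ : ZMod 2 × ZMod 2) (hκ : κ.1 = 1) (hα' : (c α).1 = 0)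
    (hβ' : (c β).1 = 0) (hγ' : (c (β - α)).1 = 0) (w : LS) (hw : LocK c α β κ w) :
    w.2 0 = (κ.2 + (c α).2) * w.1 0 + ((c α).2 + (c β).2) * w.1 1 ∧
      w.2 1 = ((c α).2 + (c (β - α)).2) * w.1 0 + (κ.2 + (c α).2) * w.1 1 := by
  have h1 := (locK_iso hc hα hβ hγ κ w _ hw (Or.inr (Or.inl rfl))).2
  have h2 := (locK_iso hc hα hβ hγ κ w _ hw (Or.inr (Or.inr (Or.inl rfl)))).2
  rw [hc.mul α β hα hβ] at h1
  rw [hc.mul α (β - α) hα hγ] at h2
  obtain ⟨k1, k2⟩ := κ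
  obtain ⟨w1, w2⟩ := w
  generalize hA : c α = A at *
  generalize hB : c β = B at *
  generalize hG : c (β - α) = G at *
  obtain ⟨a1, a2⟩ := A
  obtain ⟨b1, b2⟩ := B
  obtain ⟨g1, g2⟩ := G
  simp only [bL, mkL, Prod.mk_add_mk, Matrix.cons_val_zero, Matrix.cons_val_one] at *
  subst hκ hα' hβ' hγ'
  clear hA hB hG hw hc
  generalize w1 0 = x0 at *
  generalize w1 1 = x1 at *
  generalize w2 0 = y0 at *
  generalize w2 1 = y1 at *
  clear hα hβ hγ
  revert h1 h2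
  revert x0 x1 y0 y1 k2 a2 b2 g2
  decide

end Pool.Agent.Helper54.PT
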