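import Pool.Agent.Helper54.PT.DefsF

/-! Module A6 of the TE project (MP_1d384c_nt). -/

set_option autoImplicit false

namespace Pool.Agent.Helper54.PT

open Polynomial Finset Module

variable {σ : Type} [Fintype σ] [DecidableEq σ]

theorem a6_zl (dR : σ → ZMod 2) (sR : σ → σ → ZMod 2) (b y : Option σ → ZMod 2) (t : Option σ) :
    zl dR sR b y t = zl dR sR b 0 t + y t := by
  cases t with
  | none => simp [zl]
  | some r => simp [zl]

variable {dR : σ → ZMod 2} {sR : σ → σ → ZMod 2} {A B C : Option σ → ZMod 2}
  {M : Option σ → ZMod 2 → Submodule (ZMod 2) LS}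

open Classical in
/-- A6: the number of solutions of the local conditions -/
theorem card_HM (hM : LD dR sR A B C M) (κ : Option σ → ZMod 2) :
    (univ.filter fun x : (Option σ → Fin 2 → ZMod 2) × (Option σ → Fin 2 → ZMod 2) =>
      HM dR sR M x.1 x.2 κ).card ≤ 2 ^ (Fintype.card (Fin 2) * (Fintype.card σ + 1)) := by
  set S : Option σ → Finset LS := fun t => univ.filter fun w : LS => w ∈ M t (κ t) with hS
  have hc : ∀ t, (S t).card = 2 ^ 2 := by
    intro t
    have h1 : (S t).card = Fintype.card (M t (κ t)) := by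
      rw [hS, ← Fintype.card_subtype]
    have h2 : Fintype.card (M t (κ t)) = Fintype.card (ZMod 2) ^ finrank (ZMod 2) (M t (κ t)) :=
      Module.card_eq_pow_finrank
    rw [h1, h2, hM.dim t (κ t), ZMod.card]
  have hp : (Fintype.piFinset S).card = 2 ^ (Fintype.card (Fin 2) * (Fintype.card σ + 1)) := by
    rw [Fintype.card_piFinset, prod_congr rfl fun t _ => hc t, prod_const, card_univ,
      Fintype.card_option, ← pow_mul, Fintype.card_fin]
  rw [← hp]
  refine card_le_card_of_injOn (fun x t => ((fun j => x.1 t j,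
    fun j => zl dR sR (fun s => x.1 s j) (fun s => x.2 s j) t) : LS)) ?_ ?_
  · intro x hx
    rw [mem_coe, mem_filter] at hx
    rw [mem_coe, Fintype.mem_piFinset]
    intro t
    rw [hS, mem_filter]
    exact ⟨mem_univ _, hx.2 t⟩
  · intro x _ x' _ h
    have e1 : x.1 = x'.1 := by
      funext t j
      exact congrFun (congrArg Prod.fst (congrFun h t)) j
    refine Prod.ext e1 ?_
    funext t j
    have e2 : zl dR sR (fun s => x.1 s j) (fun s => x.2 s j) t =
        zl dR sR (fun s => x'.1 s j) (fun s => x'.2 s j) t :=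
      congrFun (congrArg Prod.snd (congrFun h t)) j
    rw [a6_zl, a6_zl dR sR (fun s => x'.1 s j), e1] at e2
    exact add_left_cancel e2

end Pool.Agent.Helper54.PT
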