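import Pool.Agent.Helper54.PT.DefsF
import Pool.Agent.Helper23.TE.B13
import Pool.Agent.Helper19.TW.C5b

/-! Module B15 of the TE project (MP_1d384c_nt). -/

set_option autoImplicit false

namespace Pool.Agent.Helper54.PT

open Polynomial Finset

section

variable {F : Type} [Field F]

theorem b15_ord_prod (S : Finset (Prm F)) (Q : Prm F) :
    ordK Q (algebraMap F[X] (RatFunc F) (∏ P ∈ S, P.1)) = if Q ∈ S then 1 else 0 := by
  classical
  induction S using Finset.induction_on with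
  | empty => rw [prod_empty, map_one, c5_ordK_one]; simp
  | insert P S hP ih =>
    rw [prod_insert hP, map_mul, ordK_mul Q (RatFunc.algebraMap_ne_zero P.2.1.ne_zero)
      (RatFunc.algebraMap_ne_zero (prod_ne_zero_iff.2 fun P' _ => P'.2.1.ne_zero)), ih, ordK_prime]
    by_cases h : Q = P
    · subst h; simp [hP]
    · simp [h, mem_insert]

theorem b15_lc_prod (S : Finset (Prm F)) :
    lcK (algebraMap F[X] (RatFunc F) (∏ P ∈ S, P.1)) = 1 := by
  rw [lcK_poly]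
  exact monic_prod_of_monic _ _ fun P _ => P.2.1

theorem b15_ord_zero {f g : F[X]} (hf : f ≠ 0) {Q : Prm F} (h : ¬ Q.1 ∣ g) (hfg : f ∣ g) :
    ordK Q (algebraMap F[X] (RatFunc F) f) = 0 := by
  rw [ordK_poly Q hf, multiplicity_eq_zero.2 fun h' => h (h'.trans hfg)]
  rfl

end

variable {F : Type} [Field F] [Finite F] {lg : F → ZMod 2}

variable {σ : Type} [Fintype σ] [DecidableEq σ] {R : σ → Prm F} {α β : F[X]}

/-- B15: from the formal Selmer group to `SelTriv` (uses B13a, B14) -/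
theorem selTriv_of (hlg : IsLog 2 lg) (hm : lg (-1) = 0)
    (hrec : ∀ P Q : Prm F, P ≠ Q → sy lg Q.1 P.1 = sy lg P.1 Q.1) (hS : SetupF R α β)
    (D : Finset (pd lg hrec R).P)
    (h : ∀ b : Fin 2 → RatFunc F, (∀ j, b j ≠ 0) →
      LocSol (algebraMap F[X] (RatFunc F) ((∏ P ∈ und lg hrec R D, P.1) * α))
        (algebraMap F[X] (RatFunc F) ((∏ P ∈ und lg hrec R D, P.1) * β)) (b 0) (b 1) →
      (∀ j (Q : Prm F), Q ∉ und lg hrec R D → (∀ r, Q ≠ R r) → (ordK Q (b j) : ZMod 2) = 0) ∧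
      ∃ v, ((fun s j => bclF R lg (b j) s, fun p j => (ordK p.1.1 (b j) : ZMod 2)) :
        (Option σ → Fin 2 → ZMod 2) × (D → Fin 2 → ZMod 2)) = tor (pd lg hrec R)
          (tauF (bclF R lg (algebraMap F[X] (RatFunc F) α))
            (bclF R lg (algebraMap F[X] (RatFunc F) β))
            (bclF R lg (algebraMap F[X] (RatFunc F) (β - α)))) D v) :
    SelTriv (algebraMap F[X] (RatFunc F) ((∏ P ∈ und lg hrec R D, P.1) * α))
      (algebraMap F[X] (RatFunc F) ((∏ P ∈ und lg hrec R D, P.1) * β)) := by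
  intro b₁ b₂ hb₁ hb₂ hsol
  obtain ⟨h1, v, hv⟩ := h ![b₁, b₂] (by intro j; fin_cases j; exacts [hb₁, hb₂]) hsol
  rw [← map_sub, ← mul_sub, map_mul, map_mul, map_mul]
  rw [map_mul, map_mul] at hsol
  clear h hsol
  set δ := algebraMap F[X] (RatFunc F) (∏ P ∈ und lg hrec R D, P.1) with hδ
  set a := algebraMap F[X] (RatFunc F) α with ha
  set b := algebraMap F[X] (RatFunc F) β with hb
  set g := algebraMap F[X] (RatFunc F) (β - α) with hg
  have hδ0 : δ ≠ 0 := RatFunc.algebraMap_ne_zero (prod_ne_zero_iff.2 fun P' _ => P'.2.1.ne_zero)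
  have ha0 : a ≠ 0 := RatFunc.algebraMap_ne_zero hS.hα
  have hb0 : b ≠ 0 := RatFunc.algebraMap_ne_zero hS.hβ
  have hg0 : g ≠ 0 := RatFunc.algebraMap_ne_zero hS.hγ
  have om : ∀ (Q : Prm F) (x y : RatFunc F), x ≠ 0 → y ≠ 0 →
      (ordK Q (x * y) : ZMod 2) = (ordK Q x : ZMod 2) + (ordK Q y : ZMod 2) := by
    intro Q x y hx hy
    rw [ordK_mul Q hx hy]
    push_cast
    rfl
  have lm : ∀ x y : RatFunc F, x ≠ 0 → y ≠ 0 → lg (lcK (x * y)) = lg (lcK x) + lg (lcK y) := by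
    intro x y hx hy
    rw [lcK_mul hx hy, hlg.1 _ _ (lcK_ne_zero hx) (lcK_ne_zero hy)]
  -- values outside the bad primes
  have hout : ∀ Q : Prm F, (∀ r, Q ≠ R r) → ¬ Q.1 ∣ α * β * (β - α) := by
    intro Q hQ hd
    obtain ⟨r, hr⟩ := (hS.mem Q).2 hd
    exact hQ r hr.symm
  have aQ : ∀ Q : Prm F, (∀ r, Q ≠ R r) → (ordK Q a : ZMod 2) = 0 := by
    intro Q hQ
    rw [ha, b15_ord_zero hS.hα (hout Q hQ) ⟨β * (β - α), by ring⟩]
    rfl
  have bQ : ∀ Q : Prm F, (∀ r, Q ≠ R r) → (ordK Q b : ZMod 2) = 0 := by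
    intro Q hQ
    rw [hb, b15_ord_zero hS.hβ (hout Q hQ) ⟨α * (β - α), by ring⟩]
    rfl
  have gQ : ∀ Q : Prm F, (∀ r, Q ≠ R r) → (ordK Q g : ZMod 2) = 0 := by
    intro Q hQ
    rw [hg, b15_ord_zero hS.hγ (hout Q hQ) ⟨α * β, by ring⟩]
    rfl
  have hund : ∀ Q ∈ und lg hrec R D, ∃ p : D, p.1.1 = Q := by
    intro Q hQ
    obtain ⟨p, hp, rfl⟩ := mem_map.1 hQ
    exact ⟨⟨p, hp⟩, rfl⟩
  have hmem : ∀ p : D, p.1.1 ∈ und lg hrec R D := fun p => mem_map.2 ⟨p.1, p.2, rfl⟩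
  have hRund : ∀ r, R r ∉ und lg hrec R D := by
    intro r hr
    obtain ⟨p, hp⟩ := hund _ hr
    exact p.1.2 r hp
  have dR : ∀ r, (ordK (R r) δ : ZMod 2) = 0 := by
    intro r
    rw [hδ, b15_ord_prod, if_neg (hRund r)]
    rfl
  have dD : ∀ p : D, (ordK p.1.1 δ : ZMod 2) = 1 := by
    intro p
    rw [hδ, b15_ord_prod, if_pos (hmem p)]
    rfl
  have dQ : ∀ Q : Prm F, Q ∉ und lg hrec R D → (ordK Q δ : ZMod 2) = 0 := by
    intro Q hQ
    rw [hδ, b15_ord_prod, if_neg hQ]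
    rfl
  have dl : lg (lcK δ) = 0 := by
    rw [hδ, b15_lc_prod]
    exact (hlg.2.1 1 one_ne_zero).2 ⟨1, by simp⟩
  have e1 := congrArg Prod.fst hv
  have e2 := congrArg Prod.snd hv
  have r1 : ∀ r, (ordK (R r) b₁ : ZMod 2) = v 0 * (ordK (R r) a : ZMod 2) +
      v 1 * ((ordK (R r) a : ZMod 2) + (ordK (R r) b : ZMod 2)) :=
    fun r => congrFun (congrFun e1 (some r)) 0
  have r2 : ∀ r, (ordK (R r) b₂ : ZMod 2) = v 0 * ((ordK (R r) a : ZMod 2) +
      (ordK (R r) g : ZMod 2)) + v 1 * (ordK (R r) a : ZMod 2) :=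
    fun r => congrFun (congrFun e1 (some r)) 1
  have l1 : lg (lcK b₁) = v 0 * lg (lcK a) + v 1 * (lg (lcK a) + lg (lcK b)) :=
    congrFun (congrFun e1 none) 0
  have l2 : lg (lcK b₂) = v 0 * (lg (lcK a) + lg (lcK g)) + v 1 * lg (lcK a) :=
    congrFun (congrFun e1 none) 1
  have p1 : ∀ p : D, (ordK p.1.1 b₁ : ZMod 2) = v 0 := fun p => congrFun (congrFun e2 p) 0
  have p2 : ∀ p : D, (ordK p.1.1 b₂ : ZMod 2) = v 1 := fun p => congrFun (congrFun e2 p) 1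
  have q1 : ∀ Q : Prm F, Q ∉ und lg hrec R D → (∀ r, Q ≠ R r) → (ordK Q b₁ : ZMod 2) = 0 := h1 0
  have q2 : ∀ Q : Prm F, Q ∉ und lg hrec R D → (∀ r, Q ≠ R r) → (ordK Q b₂ : ZMod 2) = 0 := h1 1
  have key : ∀ x : RatFunc F, x ≠ 0 → (∀ r, (ordK (R r) x : ZMod 2) = 0) →
      (∀ p : D, (ordK p.1.1 x : ZMod 2) = 0) →
      (∀ Q, Q ∉ und lg hrec R D → (∀ r, Q ≠ R r) → (ordK Q x : ZMod 2) = 0) →
      lg (lcK x) = 0 → IsSquare x := by
    intro x hx k1 k2 k3 k4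
    refine isSquare_of_cls hlg hx (fun Q => ?_) k4
    by_cases hQ : Q ∈ und lg hrec R D
    · obtain ⟨p, rfl⟩ := hund Q hQ
      exact k2 p
    · by_cases hQ' : ∀ r, Q ≠ R r
      · exact k3 Q hQ hQ'
      · push Not at hQ'
        obtain ⟨r, rfl⟩ := hQ'
        exact k1 r
  have pa : ∀ p : D, (ordK p.1.1 a : ZMod 2) = 0 := fun p => aQ _ p.1.2
  have pb : ∀ p : D, (ordK p.1.1 b : ZMod 2) = 0 := fun p => bQ _ p.1.2
  have pg : ∀ p : D, (ordK p.1.1 g : ZMod 2) = 0 := fun p => gQ _ p.1.2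
  have hda := mul_ne_zero hδ0 ha0
  have hdb := mul_ne_zero hδ0 hb0
  have hdg := mul_ne_zero hδ0 hg0
  clear_value δ a b g
  clear e1 e2 hv h1 hout hund hmem hRund
  have d2 : ∀ x : ZMod 2, x = 0 ∨ x = 1 := by decide
  have s1 : ∀ x : ZMod 2, 0 + x + (0 * x + 1 * x) = 0 := by decide
  rcases d2 (v 0) with v0 | v0 <;> rcases d2 (v 1) with v1 | v1 <;> rw [v0] at r1 r2 l1 l2 p1 <;>
    rw [v1] at r1 r2 l1 l2 p2
  · refine Or.inl ⟨key b₁ hb₁ ?_ p1 q1 ?_, key b₂ hb₂ ?_ p2 q2 ?_⟩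
    · intro r; rw [r1 r]; ring
    · rw [l1]; ring
    · intro r; rw [r2 r]; ring
    · rw [l2]; ring
  · refine Or.inr (Or.inl ⟨key _ (mul_ne_zero (mul_ne_zero hda hdb) hb₁) ?_ ?_ ?_ ?_,
      key _ (mul_ne_zero hda hb₂) ?_ ?_ ?_ ?_⟩)
    · intro r
      rw [om _ _ _ (mul_ne_zero hda hdb) hb₁, om _ _ _ hda hdb, om _ _ _ hδ0 ha0,
        om _ _ _ hδ0 hb0, r1 r, dR r]
      generalize (ordK (R r) a : ZMod 2) = x
      generalize (ordK (R r) b : ZMod 2) = y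
      revert x y
      decide
    · intro p
      rw [om _ _ _ (mul_ne_zero hda hdb) hb₁, om _ _ _ hda hdb, om _ _ _ hδ0 ha0,
        om _ _ _ hδ0 hb0, p1 p, dD p, pa p, pb p]
      decide
    · intro Q hQ hQ'
      rw [om _ _ _ (mul_ne_zero hda hdb) hb₁, om _ _ _ hda hdb, om _ _ _ hδ0 ha0,
        om _ _ _ hδ0 hb0, q1 Q hQ hQ', dQ Q hQ, aQ Q hQ', bQ Q hQ']
      decide
    · rw [lm _ _ (mul_ne_zero hda hdb) hb₁, lm _ _ hda hdb, lm _ _ hδ0 ha0,
        lm _ _ hδ0 hb0, l1, dl]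
      generalize lg (lcK a) = x
      generalize lg (lcK b) = y
      revert x y
      decide
    · intro r
      rw [om _ _ _ hda hb₂, om _ _ _ hδ0 ha0, r2 r, dR r]
      generalize (ordK (R r) a : ZMod 2) = x
      generalize (ordK (R r) g : ZMod 2) = y
      revert x y
      decide
    · intro p
      rw [om _ _ _ hda hb₂, om _ _ _ hδ0 ha0, p2 p, dD p, pa p]
      decide
    · intro Q hQ hQ'
      rw [om _ _ _ hda hb₂, om _ _ _ hδ0 ha0, q2 Q hQ hQ', dQ Q hQ, aQ Q hQ']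
      decide
    · rw [lm _ _ hda hb₂, lm _ _ hδ0 ha0, l2, dl]
      generalize lg (lcK a) = x
      generalize lg (lcK g) = y
      revert x y
      decide
  · refine Or.inr (Or.inr (Or.inl ⟨key _ (mul_ne_zero hda hb₁) ?_ ?_ ?_ ?_,
      key _ (mul_ne_zero (mul_ne_zero hda hdg) hb₂) ?_ ?_ ?_ ?_⟩))
    · intro r
      rw [om _ _ _ hda hb₁, om _ _ _ hδ0 ha0, r1 r, dR r]
      generalize (ordK (R r) a : ZMod 2) = x
      generalize (ordK (R r) b : ZMod 2) = y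
      revert x y
      decide
    · intro p
      rw [om _ _ _ hda hb₁, om _ _ _ hδ0 ha0, p1 p, dD p, pa p]
      decide
    · intro Q hQ hQ'
      rw [om _ _ _ hda hb₁, om _ _ _ hδ0 ha0, q1 Q hQ hQ', dQ Q hQ, aQ Q hQ']
      decide
    · rw [lm _ _ hda hb₁, lm _ _ hδ0 ha0, l1, dl]
      generalize lg (lcK a) = x
      generalize lg (lcK b) = y
      revert x y
      decide
    · intro r
      rw [om _ _ _ (mul_ne_zero hda hdg) hb₂, om _ _ _ hda hdg, om _ _ _ hδ0 ha0,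
        om _ _ _ hδ0 hg0, r2 r, dR r]
      generalize (ordK (R r) a : ZMod 2) = x
      generalize (ordK (R r) g : ZMod 2) = y
      revert x y
      decide
    · intro p
      rw [om _ _ _ (mul_ne_zero hda hdg) hb₂, om _ _ _ hda hdg, om _ _ _ hδ0 ha0,
        om _ _ _ hδ0 hg0, p2 p, dD p, pa p, pg p]
      decide
    · intro Q hQ hQ'
      rw [om _ _ _ (mul_ne_zero hda hdg) hb₂, om _ _ _ hda hdg, om _ _ _ hδ0 ha0,
        om _ _ _ hδ0 hg0, q2 Q hQ hQ', dQ Q hQ, aQ Q hQ', gQ Q hQ']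
      decide
    · rw [lm _ _ (mul_ne_zero hda hdg) hb₂, lm _ _ hda hdg, lm _ _ hδ0 ha0,
        lm _ _ hδ0 hg0, l2, dl]
      generalize lg (lcK a) = x
      generalize lg (lcK g) = y
      revert x y
      decide
  · refine Or.inr (Or.inr (Or.inr ⟨key _ (mul_ne_zero hdb hb₁) ?_ ?_ ?_ ?_,
      key _ (mul_ne_zero hdg hb₂) ?_ ?_ ?_ ?_⟩))
    · intro r
      rw [om _ _ _ hdb hb₁, om _ _ _ hδ0 hb0, r1 r, dR r]
      generalize (ordK (R r) a : ZMod 2) = x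
      generalize (ordK (R r) b : ZMod 2) = y
      revert x y
      decide
    · intro p
      rw [om _ _ _ hdb hb₁, om _ _ _ hδ0 hb0, p1 p, dD p, pb p]
      decide
    · intro Q hQ hQ'
      rw [om _ _ _ hdb hb₁, om _ _ _ hδ0 hb0, q1 Q hQ hQ', dQ Q hQ, bQ Q hQ']
      decide
    · rw [lm _ _ hdb hb₁, lm _ _ hδ0 hb0, l1, dl]
      generalize lg (lcK a) = x
      generalize lg (lcK b) = y
      revert x y
      decide
    · intro r
      rw [om _ _ _ hdg hb₂, om _ _ _ hδ0 hg0, r2 r, dR r]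
      generalize (ordK (R r) a : ZMod 2) = x
      generalize (ordK (R r) g : ZMod 2) = y
      revert x y
      decide
    · intro p
      rw [om _ _ _ hdg hb₂, om _ _ _ hδ0 hg0, p2 p, dD p, pg p]
      decide
    · intro Q hQ hQ'
      rw [om _ _ _ hdg hb₂, om _ _ _ hδ0 hg0, q2 Q hQ hQ', dQ Q hQ, gQ Q hQ']
      decide
    · rw [lm _ _ hdg hb₂, lm _ _ hδ0 hg0, l2, dl]
      generalize lg (lcK a) = x
      generalize lg (lcK g) = y
      revert x y
      decide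

end Pool.Agent.Helper54.PT
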