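import Pool.Agent.Helper54.PT.DefsF

/-! Module E1 of the TE project (MP_1d384c_nt). -/

set_option autoImplicit false

namespace Pool.Agent.Helper54.PT

/-- E1: the Hasse principle for the `2`-coverings -/
theorem hasse_of_selTriv {K : Type} [Field K] (hm : IsSquare (-1 : K)) {α β : K} (hα : α ≠ 0)
    (hβ : β ≠ 0) (hγ : β - α ≠ 0) (h : SelTriv α β) (b₁ b₂ : K) (h₁ : b₁ ≠ 0) (h₂ : b₂ ≠ 0)
    (h' : LocSol α β b₁ b₂) : Cov α β b₁ b₂ := by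
  obtain ⟨i, hi⟩ := hm
  rcases h b₁ b₂ h₁ h₂ h' with ⟨⟨s, hs⟩, ⟨t, ht⟩⟩ | ⟨⟨s, hs⟩, ⟨t, ht⟩⟩ | ⟨⟨s, hs⟩, ⟨t, ht⟩⟩ |
    ⟨⟨s, hs⟩, ⟨t, ht⟩⟩
  · refine ⟨0, t, s, 1, fun h0 => one_ne_zero h0.2.2.2, ?_, ?_⟩
    · rw [hs, ht]; ring
    · rw [hs, ht]; ring
  · refine ⟨1, 0, t / b₂, s * t / (α * b₁ * b₂), fun h0 => one_ne_zero h0.1, ?_, ?_⟩
    · have e : b₂ * (t / b₂) ^ 2 = (t * t) / b₂ := by field_simp
      rw [e, ← ht]
      field_simp
      ring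
    · have e : b₁ * b₂ * (s * t / (α * b₁ * b₂)) ^ 2 = (s * s) * (t * t) / (α ^ 2 * b₁ * b₂) := by
        field_simp
      rw [e, ← hs, ← ht]
      field_simp
      ring
  · refine ⟨1, i * s / b₁, 0, s * t / (α * b₁ * b₂), fun h0 => one_ne_zero h0.1, ?_, ?_⟩
    · have e : b₂ * 0 ^ 2 - b₁ * (i * s / b₁) ^ 2 = -((i * i) * (s * s) / b₁) := by
        field_simp
        ring
      rw [e, ← hs, ← hi]
      field_simp
    · have e : b₁ * b₂ * (s * t / (α * b₁ * b₂)) ^ 2 - b₁ * (i * s / b₁) ^ 2 =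
          (s * s) * (t * t) / (α ^ 2 * b₁ * b₂) - (i * i) * (s * s) / b₁ := by
        field_simp
      rw [e, ← hs, ← ht, ← hi]
      field_simp
      ring
  · refine ⟨1, i * s / b₁, i * t / b₂, 0, fun h0 => one_ne_zero h0.1, ?_, ?_⟩
    · have e : b₂ * (i * t / b₂) ^ 2 - b₁ * (i * s / b₁) ^ 2 =
          (i * i) * (t * t) / b₂ - (i * i) * (s * s) / b₁ := by
        field_simp
      rw [e, ← hs, ← ht, ← hi]
      field_simp
      ring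
    · have e : b₁ * b₂ * 0 ^ 2 - b₁ * (i * s / b₁) ^ 2 = -((i * i) * (s * s) / b₁) := by
        field_simp
        ring
      rw [e, ← hs, ← hi]
      field_simp

end Pool.Agent.Helper54.PT
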